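import Pool.Agent.helper17.SG.SpecP

/-!
# Project sg: module P10 (strong Markov property for the exit distribution)
-/

set_option autoImplicit false

open MeasureTheory Set Metric Filter Topology
open scoped ENNReal NNReal ComplexConjugate

namespace Pool.Agent.SG

theorem P10 (h5 : P05_stmt) : P10_stmt := by
  classical
  intro Γ _ W D x y w
  have key : ∀ n : ℕ, ∀ x : Γ, W.hdn D n x y * W.exi D y w ≤ W.exi D x w := by
    intro n
    induction n with
    | zero =>
      intro x
      simp only [Walk.hdn]
      split_ifs with h
      · rw [one_mul, h.2]
      · rw [zero_mul]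
        exact bot_le
    | succ n ih =>
      intro x
      simp only [Walk.hdn]
      split_ifs with h1 h2
      · rw [one_mul, h2]
      · rw [Finset.sum_mul, (h5 Γ W D).2.2.2.2.1 x h1 w]
        refine Finset.sum_le_sum fun s _ => ?_
        rw [mul_assoc]
        gcongr
        exact ih (x * s)
      · rw [zero_mul]
        exact bot_le
  unfold Walk.hid
  rw [ENNReal.iSup_mul]
  exact iSup_le fun n => key n x

end Pool.Agent.SG
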