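import Pool.Agent.helper24.SG.SpecD

/-!
# Project sg: module D09 (mass of the sets `VT`)
-/

set_option autoImplicit false

open MeasureTheory Set Metric Filter Topology
open scoped ENNReal NNReal ComplexConjugate

namespace Pool.Agent.SG

theorem D09_num : (7 / 8 : ℝ≥0∞) = 3 / 4 + 1 / 8 := by
  have h1 : (3 / 4 : ℝ≥0∞) = ENNReal.ofReal (3 / 4) := by
    rw [ENNReal.ofReal_div_of_pos (by norm_num)]
    norm_num
  have h2 : (1 / 8 : ℝ≥0∞) = ENNReal.ofReal (1 / 8) := by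
    rw [ENNReal.ofReal_div_of_pos (by norm_num)]
    norm_num
  have h3 : (7 / 8 : ℝ≥0∞) = ENNReal.ofReal (7 / 8) := by
    rw [ENNReal.ofReal_div_of_pos (by norm_num)]
    norm_num
  rw [h1, h2, h3, ← ENNReal.ofReal_add (by norm_num) (by norm_num)]
  norm_num

theorem D09_good {Γ : Type} [Group Γ] (A : DiscRep Γ) (w : Γ) (ρ : ℝ) :
    IsClosed (good A w ρ) := by
  have h1 : good A w ρ = circ ∩ {ξ | ρ / 2 ≤ ‖ξ - A.pt w⁻¹‖} := rfl
  rw [h1]
  refine isClosed_sphere.inter (isClosed_le continuous_const ?_)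
  fun_prop

theorem D09 (hD08 : D08_stmt) (hB01 : B01_stmt) (hB14 : B14_stmt) : D09_stmt := by
  intro Γ _ _ A W ν κ ρ t U hS hD hκ hκs hρ hball ht ht1 hU hU7
  have hν : IsProbabilityMeasure ν := hS.prob
  obtain ⟨-, -, -, -, -, -, -, -, hcont, -⟩ := hB01 Γ A
  have hfin := (hB14 Γ A).2.2 hD (κ / 4 * t) (by positivity)
  have hcirc : circ ⊆ closedBall (0 : ℂ) 1 := sphere_subset_closedBall
  have hVT : VT A (κ / 4) ρ t U = ⋃ w ∈ {w | κ / 4 * t ≤ A.kk w ∧ A.kk w ≤ t},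
      A.act w '' (U ∩ good A w ρ) := rfl
  have hcl : IsClosed (VT A (κ / 4) ρ t U) := by
    rw [hVT]
    refine Set.Finite.isClosed_biUnion (hfin.subset fun w hw => hw.1) fun w _ => ?_
    have hsub : U ∩ good A w ρ ⊆ circ := fun ξ hξ => hξ.2.1
    have hcomp : IsCompact (U ∩ good A w ρ) :=
      (isCompact_sphere (0 : ℂ) 1).of_isClosed_subset (hU.inter (D09_good A w ρ)) hsub
    exact (hcomp.image_of_continuousOn ((hcont w).mono (hsub.trans hcirc))).isClosed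
  refine ⟨hcl.measurableSet, ?_⟩
  obtain ⟨π, hπ1, hπ2, hπ3⟩ := hD08 Γ A W ν κ t hS hD hκ hκs ht ht1
  have hbad : ∀ w : Γ, ν (circ \ good A w ρ) ≤ 1 / 8 := by
    intro w
    rcases (circ \ good A w ρ).eq_empty_or_nonempty with he | ⟨ξ₀, hξ₀⟩
    · rw [he, measure_empty]
      exact bot_le
    · refine (measure_mono ?_).trans (hball ξ₀ hξ₀.1)
      intro ξ hξ
      have h1 : ∀ η ∈ circ \ good A w ρ, ‖η - A.pt w⁻¹‖ < ρ / 2 := by
        intro η hη
        by_contra hcon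
        exact hη.2 ⟨hη.1, not_lt.1 hcon⟩
      have h2 := h1 ξ hξ
      have h3 := h1 ξ₀ hξ₀
      rw [mem_closedBall, dist_eq_norm]
      have h4 : ξ - ξ₀ = (ξ - A.pt w⁻¹) - (ξ₀ - A.pt w⁻¹) := by ring
      rw [h4]
      have h5 := norm_sub_le (ξ - A.pt w⁻¹) (ξ₀ - A.pt w⁻¹)
      linarith
  have hgood : ∀ w : Γ, 3 / 4 ≤ ν (U ∩ good A w ρ) := by
    intro w
    have hsub : U ⊆ (U ∩ good A w ρ) ∪ ((circ \ good A w ρ) ∪ circᶜ) := by
      intro ξ hξ
      by_cases h1 : ξ ∈ circ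
      · by_cases h2 : ξ ∈ good A w ρ
        · exact Or.inl ⟨hξ, h2⟩
        · exact Or.inr (Or.inl ⟨h1, h2⟩)
      · exact Or.inr (Or.inr h1)
    have h1 : ν U ≤ ν (U ∩ good A w ρ) + (1 / 8 + 0) := by
      refine (measure_mono hsub).trans ((measure_union_le _ _).trans ?_)
      refine add_le_add le_rfl ((measure_union_le _ _).trans (add_le_add (hbad w) ?_))
      rw [hS.supp]
    rw [add_zero] at h1
    have h2 := hU7.trans h1
    rw [D09_num] at h2
    refine (ENNReal.add_le_add_iff_right ?_).1 h2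
    finiteness
  rw [hπ3 _ hcl.measurableSet]
  calc (3 / 4 : ℝ≥0∞) = ∑' w, π w * (3 / 4) := by
        rw [ENNReal.tsum_mul_right, hπ1, one_mul]
    _ ≤ ∑' w, π w * ν (A.act w ⁻¹' VT A (κ / 4) ρ t U) := by
        refine ENNReal.tsum_le_tsum fun w => ?_
        by_cases h0 : π w = 0
        · rw [h0, zero_mul, zero_mul]
        · refine mul_le_mul' le_rfl ((hgood w).trans (measure_mono ?_))
          intro ξ hξ
          rw [mem_preimage, hVT]
          exact mem_iUnion₂.2 ⟨w, hπ2 w h0, mem_image_of_mem _ hξ⟩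

end Pool.Agent.SG
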