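import Pool.Agent.helper68.SG.SpecK

/-!
# Project sg: module K08 (the commutator of dilation and a group element tends to zero)
-/

set_option autoImplicit false

open MeasureTheory Set Metric Filter Topology
open scoped ENNReal NNReal ComplexConjugate

namespace Pool.Agent.SG

theorem K08 (h4 : K04_stmt) (h5 : K05_stmt) (h6 : K06_stmt) (h7 : K07_stmt) : K08_stmt := by
  intro Γ _ A F ψ C ν f C' a' hF hν hR s k
  obtain ⟨c, L, hc, hc1, hL, h51, h52, h53, h54⟩ := h5 (A.a s) (A.b s) (A.norm_eq s)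
  refine squeeze_zero_norm' ?_ (h7 k a' c C L C' hR.apos hc)
  filter_upwards [Ioo_mem_nhdsLT (zero_lt_one' ℝ)] with r hr
  obtain ⟨hr0, hr1⟩ := hr
  obtain ⟨R, hR1, hd1, hd2, hb⟩ := h54 r hr0 hr1
  have hsq0 : 0 < √(1 - r) := Real.sqrt_pos.2 (by linarith)
  have hsq1 : √(1 - r) < 1 := by
    rw [Real.sqrt_lt' one_pos]
    linarith
  have hact : ∀ z : ℂ, A.act s z = mob (A.a s) (A.b s) z := fun z => rfl
  have hη : 0 < c * (1 - r) := mul_pos hc (by linarith)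
  have hη' : 0 < c * √(1 - r) := mul_pos hc hsq0
  have h61 := (h6 F C hF.cpos hF.diff hF.grow k (c * (1 - r)) hη).1
  have h62 := (h6 F C hF.cpos hF.diff hF.grow k (c * √(1 - r)) hη').2
  have hHd : DifferentiableOn ℂ
      (fun ξ : ℂ => F (A.act s (r * ξ)) ^ k - F (r * A.act s ξ) ^ k) (ball 0 R) := by
    refine DifferentiableOn.sub (DifferentiableOn.pow ?_ k) (DifferentiableOn.pow ?_ k)
    · refine hF.diff.comp hd1 fun z hz => ?_
      rw [mem_ball_zero_iff]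
      exact (hb z hz).1
    · refine hF.diff.comp hd2 fun z hz => ?_
      rw [mem_ball_zero_iff]
      exact (hb z hz).2
  refine h4 R (fun ξ : ℂ => F (A.act s (r * ξ)) ^ k - F (r * A.act s ξ) ^ k) hR1 hHd ν f C' a' hν hR
    (1 - √(1 - r)) ⟨by linarith, by linarith⟩ _ _ ?_ ?_
  · intro ξ hξ
    have e1 : ‖(r : ℂ) * ξ‖ = r := by
      rw [norm_mul, hξ, mul_one, Complex.norm_real, Real.norm_eq_abs, abs_of_pos hr0]
    have e2 : ‖(r : ℂ) * A.act s ξ‖ = r * ‖A.act s ξ‖ := by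
      rw [norm_mul, Complex.norm_real, Real.norm_eq_abs, abs_of_pos hr0]
    have e3 : ‖A.act s ξ‖ = 1 := h52 ξ hξ
    have e4 : c * (1 - r) ≤ 1 - ‖A.act s (r * ξ)‖ := by
      have := (h51 (r * ξ) (by rw [e1]; exact hr1.le)).2
      rwa [e1] at this
    have e5 : c * (1 - r) ≤ 1 - ‖(r : ℂ) * A.act s ξ‖ := by
      rw [e2, e3, mul_one]
      have : c * (1 - r) ≤ 1 * (1 - r) := mul_le_mul_of_nonneg_right hc1 (by linarith)
      linarith
    have e6 := h61 _ e4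
    have e7 := h61 _ e5
    have e8 := norm_sub_le (F (A.act s (r * ξ)) ^ k) (F (r * A.act s ξ) ^ k)
    linarith
  · intro ξ hξ
    have hρ0 : 0 < 1 - √(1 - r) := by linarith
    set ρ : ℝ := 1 - √(1 - r) with hρ
    have hz : ‖((ρ : ℝ) : ℂ) * ξ‖ = ρ := by
      rw [norm_mul, hξ, mul_one, Complex.norm_real, Real.norm_eq_abs, abs_of_pos hρ0]
    have hρ1 : ρ ≤ 1 := by linarith
    have e1 : ‖(r : ℂ) * ((ρ : ℂ) * ξ)‖ = r * ρ := by
      rw [norm_mul, hz, Complex.norm_real, Real.norm_eq_abs, abs_of_pos hr0]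
    have e2 : ‖(r : ℂ) * A.act s ((ρ : ℂ) * ξ)‖ = r * ‖A.act s ((ρ : ℂ) * ξ)‖ := by
      rw [norm_mul, Complex.norm_real, Real.norm_eq_abs, abs_of_pos hr0]
    have hrρ : r * ρ ≤ ρ := by nlinarith
    have hcs : c * √(1 - r) = c * (1 - ρ) := by
      rw [hρ]
      ring
    have e4 : c * √(1 - r) ≤ 1 - ‖A.act s (r * ((ρ : ℂ) * ξ))‖ := by
      have := (h51 (r * ((ρ : ℂ) * ξ)) (by rw [e1]; linarith)).2
      rw [e1] at this
      rw [hcs]
      have h9 : c * (1 - ρ) ≤ c * (1 - r * ρ) := mul_le_mul_of_nonneg_left (by linarith) hc.le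
      exact h9.trans this
    have e5 : c * √(1 - r) ≤ 1 - ‖(r : ℂ) * A.act s ((ρ : ℂ) * ξ)‖ := by
      have h8 := (h51 ((ρ : ℂ) * ξ) (by rw [hz]; exact hρ1)).2
      rw [hz] at h8
      rw [hcs, e2]
      have h9 : r * ‖A.act s ((ρ : ℂ) * ξ)‖ ≤ 1 * ‖A.act s ((ρ : ℂ) * ξ)‖ :=
        mul_le_mul_of_nonneg_right hr1.le (norm_nonneg _)
      rw [hact] at h9 ⊢
      linarith
    have e6 := h62 _ _ e4 e5
    have e7 : ‖A.act s (r * ((ρ : ℂ) * ξ)) - r * A.act s ((ρ : ℂ) * ξ)‖ ≤ L * (1 - r) :=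
      h53 r ((ρ : ℂ) * ξ) hr0 hr1 (by rw [hz]; exact hρ1)
    have hlog : 0 ≤ Real.log (2 / (c * √(1 - r))) := by
      refine Real.log_nonneg ?_
      rw [le_div_iff₀ hη', one_mul]
      have : c * √(1 - r) ≤ 1 * 1 := mul_le_mul hc1 hsq1.le hsq0.le (by norm_num)
      linarith
    have hC0 : 0 < C := lt_of_lt_of_le one_pos hF.cpos
    refine e6.trans (mul_le_mul_of_nonneg_left e7 ?_)
    positivity

end Pool.Agent.SG
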