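import Pool.Agent.helper3.SG.SpecS

/-!
# Project sg: module S06 (a torsion free discrete group is commutation transitive, and its maximal
abelian subgroups are malnormal)
-/

set_option autoImplicit false

open MeasureTheory Set Metric Filter Topology
open scoped ENNReal NNReal ComplexConjugate commutatorElement

namespace Pool.Agent.SG

theorem S06_norm {a b ξ : ℂ} (h : ‖a‖ ^ 2 - ‖b‖ ^ 2 = 1) (hξ : ‖ξ‖ = 1) : ‖mob a b ξ‖ = 1 := by
  have h1 : ‖conj b * ξ + conj a‖ = ‖a * ξ + b‖ := by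
    have h2 : a * ξ + b = ξ * conj (conj b * ξ + conj a) := by
      have h3 : ξ * conj ξ = 1 := by
        rw [Complex.mul_conj, Complex.normSq_eq_norm_sq, hξ]
        norm_num
      simp only [map_add, map_mul, Complex.conj_conj]
      linear_combination (-b) * h3
    rw [h2, norm_mul, hξ, one_mul, RCLike.norm_conj]
  have h0 : ‖conj b * ξ + conj a‖ ≠ 0 := by
    intro h0
    rw [norm_eq_zero] at h0
    have h4 : conj a = -(conj b * ξ) := by linear_combination h0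
    have h5 : ‖a‖ = ‖b‖ := by
      have := congrArg norm h4
      rwa [RCLike.norm_conj, norm_neg, norm_mul, RCLike.norm_conj, hξ, mul_one] at this
    rw [h5] at h
    linarith
  unfold mob
  rw [norm_div, h1]
  rw [h1] at h0
  exact div_self h0

theorem S06_one (h1 : S01_stmt) {Γ : Type} [Group Γ] (A : DiscRep Γ) (ξ : ℂ) : A.act 1 ξ = ξ := by
  obtain ⟨-, ⟨ε, hε, ha, hb⟩, -⟩ := h1 Γ A
  unfold DiscRep.act mob
  rw [ha, hb]
  rcases hε with rfl | rfl <;> simp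

theorem S06 (h1 : S01_stmt) (h3 : S03_stmt) (h4 : S04_stmt) (h5 : S05_stmt) : S06_stmt := by
  intro Γ _ hTF A hD
  have hone : ∀ ξ : ℂ, A.act 1 ξ = ξ := S06_one h1 A
  have hmul : ∀ (γ δ : Γ) (ξ : ℂ), ξ ∈ circ → A.act (γ * δ) ξ = A.act γ (A.act δ ξ) := by
    intro γ δ ξ hξ
    have hn : ‖ξ‖ = 1 := by simpa [circ] using hξ
    exact A.map_mul γ δ ξ hn.le
  have hcirc : ∀ (γ : Γ) (ξ : ℂ), ξ ∈ circ → A.act γ ξ ∈ circ := by
    intro γ ξ hξ
    have hn : ‖ξ‖ = 1 := by simpa [circ] using hξ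
    have h6 : ‖A.act γ ξ‖ = 1 := S06_norm (A.norm_eq γ) hn
    simpa [circ] using h6
  have hinv : ∀ (γ : Γ) (ξ : ℂ), ξ ∈ circ → A.act γ⁻¹ (A.act γ ξ) = ξ := by
    intro γ ξ hξ
    rw [← hmul γ⁻¹ γ ξ hξ, inv_mul_cancel, hone]
  have hinv' : ∀ (γ : Γ) (ξ : ℂ), ξ ∈ circ → A.act γ (A.act γ⁻¹ ξ) = ξ := by
    intro γ ξ hξ
    rw [← hmul γ γ⁻¹ ξ hξ, mul_inv_cancel, hone]
  have hinj : ∀ (γ : Γ) (ξ η : ℂ), ξ ∈ circ → η ∈ circ → A.act γ ξ = A.act γ η → ξ = η := by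
    intro γ ξ η hξ hη h
    rw [← hinv γ ξ hξ, h, hinv γ η hη]
  obtain ⟨-, h4'⟩ := h4 Γ hTF A hD
  -- claim (*)
  have star : ∀ z x : Γ, z ≠ 1 → (∀ ξ ∈ circ, A.act z ξ = ξ → A.act z (A.act x ξ) = A.act x ξ) →
      ∀ ξ ∈ circ, A.act z ξ = ξ → A.act x ξ = ξ := by
    intro z x hz hx ξ hξ hzξ
    by_contra hne
    have hη := hcirc x ξ hξ
    have hzη := hx ξ hξ hzξ
    have hθ := hcirc x _ hη
    have hzθ := hx _ hη hzη
    have hθη : A.act x (A.act x ξ) ≠ A.act x ξ := fun h => hne (hinj x _ _ hη hξ h)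
    have hθξ : A.act x (A.act x ξ) = ξ := by
      by_contra hcon
      exact hz (h4' z ξ hξ (A.act x ξ) hη (A.act x (A.act x ξ)) hθ (fun h => hne h.symm)
        (fun h => hcon h.symm) (fun h => hθη h.symm) hzξ hzη hzθ)
    obtain ⟨ζ, hζ, hxζ⟩ := h3 Γ hTF A hD x
    have hζξ : ξ ≠ ζ := by
      intro h
      rw [h] at hne
      exact hne hxζ
    have hζη : A.act x ξ ≠ ζ := by
      intro h
      have h6 : A.act x (A.act x ξ) = A.act x ξ := by
        rw [h, hxζ]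
      exact hθη h6
    have hxx : x * x = 1 := by
      refine h4' (x * x) ξ hξ (A.act x ξ) hη ζ hζ (fun h => hne h.symm) hζξ hζη ?_ ?_ ?_
      · rw [hmul x x ξ hξ, hθξ]
      · rw [hmul x x _ hη, hθξ]
      · rw [hmul x x ζ hζ, hxζ, hxζ]
    have hx1 : x = 1 := hTF x 2 (by norm_num) (by rw [pow_two, hxx])
    rw [hx1, hone] at hne
    exact hne rfl
  have comm : ∀ z x : Γ, z ≠ 1 → Commute x z → ∀ ξ ∈ circ, A.act z ξ = ξ → A.act x ξ = ξ := by
    intro z x hz hc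
    refine star z x hz fun ξ hξ h => ?_
    rw [← hmul z x ξ hξ, ← hc.eq, hmul x z ξ hξ, h]
  refine ⟨?_, ?_⟩
  · intro x z hz hc
    obtain ⟨ξ, hξ, hzξ⟩ := h3 Γ hTF A hD z
    have hx' : ∀ η ∈ circ, A.act z η = η → A.act x⁻¹ η = η := by
      refine star z x⁻¹ hz fun η hη h => ?_
      have h6 : A.act (x * z * x⁻¹) η = η := comm z (x * z * x⁻¹) hz hc.symm η hη h
      have hxη := hcirc x⁻¹ η hη
      rw [hmul (x * z) x⁻¹ η hη, hmul x z _ hxη] at h6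
      have h7 := congrArg (A.act x⁻¹) h6
      rwa [hinv x _ (hcirc z _ hxη)] at h7
    have h8 : A.act x ξ = ξ := by
      have h9 := hinv' x ξ hξ
      rwa [hx' ξ hξ hzξ] at h9
    exact h5 Γ hTF A hD ξ hξ x z h8 hzξ
  · intro x y z hz hxz hyz
    obtain ⟨ξ, hξ, hzξ⟩ := h3 Γ hTF A hD z
    exact h5 Γ hTF A hD ξ hξ x y (comm z x hz hxz ξ hξ hzξ) (comm z y hz hyz ξ hξ hzξ)

end Pool.Agent.SG
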