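import Pool.Agent.helper3.SG.SpecS

/-!
# Project sg: module S19 (normalisation of a measure without atoms)
-/

set_option autoImplicit false

open MeasureTheory Set Metric Filter Topology
open scoped ENNReal NNReal ComplexConjugate commutatorElement

namespace Pool.Agent.SG

theorem S19_id {a b ξ : ℂ} (hξ : ‖ξ‖ = 1) : ‖conj b * ξ + conj a‖ = ‖a * ξ + b‖ := by
  have h2 : a * ξ + b = ξ * conj (conj b * ξ + conj a) := by
    have h3 : ξ * conj ξ = 1 := by
      rw [Complex.mul_conj, Complex.normSq_eq_norm_sq, hξ]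
      norm_num
    simp only [map_add, map_mul, Complex.conj_conj]
    linear_combination (-b) * h3
  rw [h2, norm_mul, hξ, one_mul, RCLike.norm_conj]

theorem S19_norm {a b ξ : ℂ} (h : ‖a‖ ^ 2 - ‖b‖ ^ 2 = 1) (hξ : ‖ξ‖ = 1) : ‖mob a b ξ‖ = 1 := by
  have h1 := S19_id (a := a) (b := b) hξ
  have h0 : ‖conj b * ξ + conj a‖ ≠ 0 := by
    intro h0
    rw [norm_eq_zero] at h0
    have h4 : conj a = -(conj b * ξ) := by linear_combination h0
    have h5 : ‖a‖ = ‖b‖ := by
      have := congrArg norm h4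
      rwa [RCLike.norm_conj, norm_neg, norm_mul, RCLike.norm_conj, hξ, mul_one] at this
    rw [h5] at h
    linarith
  unfold mob
  rw [norm_div, h1]
  rw [h1] at h0
  exact div_self h0

theorem S19_det (a b p q : ℂ) : ‖a * p + b * conj q‖ ^ 2 - ‖a * q + b * conj p‖ ^ 2 =
    (‖a‖ ^ 2 - ‖b‖ ^ 2) * (‖p‖ ^ 2 - ‖q‖ ^ 2) := by
  simp only [Complex.sq_norm, Complex.normSq_apply, Complex.add_re, Complex.add_im, Complex.mul_re,
    Complex.mul_im, Complex.conj_re, Complex.conj_im]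
  ring

theorem S19_mcyc (a b : ℂ) : Measurable (cyc a b) := by
  unfold cyc
  exact (Real.measurable_log.comp (by fun_prop)).const_mul 2

theorem S19_mmob (a b : ℂ) : Measurable (mob a b) := by
  unfold mob
  exact Measurable.div (by fun_prop) (by fun_prop)

theorem S19_int (h17 : S17_stmt) (ν : Measure ℂ) (hν : IsProbabilityMeasure ν)
    (hs : ∀ᵐ ξ ∂ν, ‖ξ‖ = 1) {a b : ℂ} (h : ‖a‖ ^ 2 - ‖b‖ ^ 2 = 1) : Integrable (cyc a b) ν := by
  refine Integrable.of_bound (S19_mcyc a b).aestronglyMeasurable (2 * Real.log (2 * ‖a‖)) ?_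
  filter_upwards [hs] with ξ hξ
  exact h17.1 a b ξ h hξ

/-- a uniform radius. -/
theorem S19_rad (ν : Measure ℂ) (hν : IsProbabilityMeasure ν) (hat : ∀ x, ν {x} = 0) :
    ∃ r : ℝ, 0 < r ∧ r < 1 ∧ ∀ x ∈ circ, ν (closedBall x r) ≤ 1 / 4 := by
  have h1 : ∀ x : ℂ, ∃ U ⊇ ({x} : Set ℂ), IsOpen U ∧ ν U < 1 / 4 := by
    intro x
    refine Set.exists_isOpen_lt_of_lt {x} (1 / 4) ?_
    rw [hat x]
    simp
  choose U hU1 hU2 hU3 using h1
  obtain ⟨δ, hδ, hδU⟩ := lebesgue_number_lemma_of_metric (isCompact_sphere (0 : ℂ) 1)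
    (c := U) hU2 (fun x _ => mem_iUnion.2 ⟨x, hU1 x (mem_singleton x)⟩)
  refine ⟨min (δ / 2) (1 / 2), lt_min (by linarith) (by norm_num),
    (min_le_right _ _).trans_lt (by norm_num), ?_⟩
  intro x hx
  obtain ⟨i, hi⟩ := hδU x hx
  have h2 : closedBall x (min (δ / 2) (1 / 2)) ⊆ U i :=
    (closedBall_subset_ball ((min_le_left _ _).trans_lt (by linarith))).trans hi
  exact (measure_mono h2).trans (hU3 i).le

/-- the lower bound. -/
theorem S19_low (h17 : S17_stmt) (ν : Measure ℂ) (hν : IsProbabilityMeasure ν)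
    (hs : ∀ᵐ ξ ∂ν, ‖ξ‖ = 1) {r : ℝ} (hr : 0 < r) (hr1 : r < 1)
    (hball : ∀ x ∈ circ, ν (closedBall x r) ≤ 1 / 4) {a b : ℂ} (h : ‖a‖ ^ 2 - ‖b‖ ^ 2 = 1) :
    -(2 * Real.log 2 + 2 * Real.log (2 / r)) ≤ Phi ν a b := by
  have ha2 : 1 ≤ ‖a‖ ^ 2 := by nlinarith [sq_nonneg ‖b‖]
  have ha1 : 1 ≤ ‖a‖ := by
    by_contra hcon
    have : ‖a‖ < 1 := not_le.1 hcon
    nlinarith [norm_nonneg a]
  have ha0 : 0 < ‖a‖ := by linarith
  have han : a ≠ 0 := norm_pos_iff.1 ha0
  set Λ : ℝ := 2 * Real.log ‖a‖ with hΛ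
  have hΛ0 : 0 ≤ Λ := by
    have := Real.log_nonneg ha1
    linarith
  set z : ℂ := -b / a with hz
  have hzn : ‖z‖ < 1 := by
    rw [hz, norm_div, norm_neg, div_lt_one ha0]
    by_contra hcon
    have : ‖a‖ ≤ ‖b‖ := not_lt.1 hcon
    nlinarith [norm_nonneg a]
  have hfac : ∀ ξ : ℂ, ‖ξ‖ = 1 → ‖conj b * ξ + conj a‖ = ‖a‖ * ‖ξ - z‖ := by
    intro ξ hξ
    rw [S19_id hξ, ← norm_mul, hz]
    congr 1
    field_simp
    ring
  have hdist : ∀ ξ : ℂ, ‖ξ‖ = 1 → 1 - ‖z‖ ≤ ‖ξ - z‖ := by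
    intro ξ hξ
    have := norm_sub_norm_le ξ z
    rw [hξ] at this
    exact this
  obtain ⟨u, hu, huz⟩ : ∃ u ∈ circ, ‖z - u‖ ≤ 1 - ‖z‖ := by
    by_cases h0 : z = 0
    · refine ⟨1, by simp [circ], ?_⟩
      rw [h0]
      simp
    · have hzp : 0 < ‖z‖ := norm_pos_iff.2 h0
      refine ⟨z / (‖z‖ : ℂ), ?_, ?_⟩
      · simp only [circ, mem_sphere_iff_norm, sub_zero, norm_div, Complex.norm_real, norm_norm]
        exact div_self hzp.ne'
      · have h1 : z - z / (‖z‖ : ℂ) = z / (‖z‖ : ℂ) * ((‖z‖ - 1 : ℝ) : ℂ) := by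
          have : (‖z‖ : ℂ) ≠ 0 := by exact_mod_cast hzp.ne'
          push_cast
          field_simp
        rw [h1, norm_mul, norm_div, Complex.norm_real, norm_norm, div_self hzp.ne', one_mul,
          Complex.norm_real, Real.norm_eq_abs, abs_of_nonpos (by linarith)]
        linarith
  have hlog2 : 0 ≤ Real.log 2 := Real.log_nonneg (by norm_num)
  have hlogr : 0 ≤ Real.log (2 / r) := by
    refine Real.log_nonneg ?_
    rw [le_div_iff₀ hr]
    linarith
  set K : ℝ := 2 * Real.log 2 + 2 * Real.log (2 / r) with hK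
  have hpt : ∀ ξ : ℂ, ‖ξ‖ = 1 →
      (Λ - K) - (closedBall u r).indicator (fun _ => 2 * Λ) ξ ≤ cyc a b ξ := by
    intro ξ hξ
    by_cases hb : ξ ∈ closedBall u r
    · rw [indicator_of_mem hb]
      have h1 := neg_le_of_abs_le (h17.1 a b ξ h hξ)
      rw [Real.log_mul (by norm_num) ha0.ne'] at h1
      linarith
    · rw [indicator_of_notMem hb, sub_zero]
      rw [mem_closedBall, dist_eq_norm, not_le] at hb
      have h1 : ‖ξ - u‖ ≤ ‖ξ - z‖ + ‖z - u‖ := norm_sub_le_norm_sub_add_norm_sub _ _ _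
      have h2 := hdist ξ hξ
      have h3 : r / 2 ≤ ‖ξ - z‖ := by linarith
      have h4 : Real.log (r / 2) ≤ Real.log ‖ξ - z‖ := Real.log_le_log (by linarith) h3
      have h5 : Real.log (r / 2) = -Real.log (2 / r) := by
        rw [← Real.log_inv, inv_div]
      have h6 : cyc a b ξ = Λ + 2 * Real.log ‖ξ - z‖ := by
        unfold cyc
        rw [hfac ξ hξ, Real.log_mul ha0.ne' (by linarith), hΛ]
        ring
      rw [h6]
      linarith
  have hmb : MeasurableSet (closedBall u r) := measurableSet_closedBall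
  have hind : Integrable ((closedBall u r).indicator (fun _ => 2 * Λ)) ν :=
    (integrable_const (2 * Λ)).indicator hmb
  have h1 : ∫ ξ, ((Λ - K) - (closedBall u r).indicator (fun _ => 2 * Λ) ξ) ∂ν ≤ Phi ν a b := by
    refine integral_mono_ae ((integrable_const _).sub hind) (S19_int h17 ν hν hs h) ?_
    filter_upwards [hs] with ξ hξ
    exact hpt ξ hξ
  rw [integral_sub (integrable_const _) hind, integral_indicator_const _ hmb, integral_const,
    probReal_univ, one_smul, smul_eq_mul] at h1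
  have h2 : ν.real (closedBall u r) ≤ 1 / 4 := by
    have h3 := hball u hu
    have h4 : ν.real (closedBall u r) = (ν (closedBall u r)).toReal := rfl
    rw [h4]
    have h5 := ENNReal.toReal_mono (by finiteness) h3
    refine h5.trans (le_of_eq ?_)
    norm_num
  have h3 : ν.real (closedBall u r) * (2 * Λ) ≤ 1 / 4 * (2 * Λ) :=
    mul_le_mul_of_nonneg_right h2 (by linarith)
  linarith

theorem S19 (h17 : S17_stmt) : S19_stmt := by
  intro ν hν hsupp hat
  have hs : ∀ᵐ ξ ∂ν, ‖ξ‖ = 1 := by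
    rw [ae_iff]
    refine measure_mono_null ?_ hsupp
    intro ξ hξ
    simpa [circ] using hξ
  obtain ⟨r, hr, hr1, hball⟩ := S19_rad ν hν hat
  set K : ℝ := 2 * Real.log 2 + 2 * Real.log (2 / r) with hK
  set S : Set ℝ := {t | ∃ p q : ℂ, ‖p‖ ^ 2 - ‖q‖ ^ 2 = 1 ∧ t = Phi ν p q} with hS
  have hSn : S.Nonempty := ⟨Phi ν 1 0, 1, 0, by norm_num, rfl⟩
  have hSb : BddBelow S := by
    refine ⟨-K, ?_⟩
    rintro t ⟨p, q, hpq, rfl⟩
    exact S19_low h17 ν hν hs hr hr1 hball hpq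
  obtain ⟨t, ⟨p, q, hpq, rfl⟩, ht⟩ := exists_lt_of_csInf_lt hSn (lt_add_one (sInf S))
  refine ⟨p, q, hpq, ?_, ?_, ?_⟩
  · exact Measure.isProbabilityMeasure_map (S19_mmob p q).aemeasurable
  · have hmc : MeasurableSet circᶜ := (isClosed_sphere (x := (0 : ℂ)) (ε := 1)).measurableSet.compl
    rw [Measure.map_apply (S19_mmob p q) hmc]
    refine measure_mono_null ?_ hsupp
    intro ξ hξ hc
    apply hξ
    have h1 : ‖ξ‖ = 1 := by simpa [circ] using hc
    simpa [circ] using S19_norm hpq h1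
  · intro a b hab
    have hdet : ‖a * p + b * conj q‖ ^ 2 - ‖a * q + b * conj p‖ ^ 2 = 1 := by
      rw [S19_det, hab, hpq, one_mul]
    have h1 : Phi (ν.map (mob p q)) a b =
        Phi ν (a * p + b * conj q) (a * q + b * conj p) - Phi ν p q := by
      unfold Phi
      rw [integral_map (S19_mmob p q).aemeasurable (S19_mcyc a b).aestronglyMeasurable,
        ← integral_sub (S19_int h17 ν hν hs hdet) (S19_int h17 ν hν hs hpq)]
      refine integral_congr_ae ?_
      filter_upwards [hs] with ξ hξ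
      rw [h17.2.1 a b p q ξ hab hpq hξ]
      ring
    have h2 : sInf S ≤ Phi ν (a * p + b * conj q) (a * q + b * conj p) :=
      csInf_le hSb ⟨_, _, hdet, rfl⟩
    rw [h1]
    linarith

end Pool.Agent.SG
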