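import Pool.Agent.helper80.SG.Spec

/-!
# Project sg: (MP_b5a345_ag): module ASN (arithmetic)
-/

set_option autoImplicit false

namespace Pool.Agent.SG

theorem ASN_c (m n M D s σ g : ℤ) (hm : 2 ≤ m) (hn : 1 ≤ n) (hD : D = m + n + 1)
    (hT : 3 * (m + 13) * (n + 1) ^ 2 * D ≤ 4 * m * M) (h1 : s * D ≤ (m + 1) * M + (m + n))
    (hσ : (m + 1) * σ ≤ s) (hg : 4 * g ≤ n * (m + 1)) :
    (σ + 1) * (n + 1) + (g + 3 * (n + 1)) * (3 * (n + 1)) ≤ M := by
  have hD0 : 0 < D := by linarith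
  have hpos : 0 < 4 * (m + 1) * D := by positivity
  refine le_of_mul_le_mul_left ?_ hpos
  have h2 : (m + 1) * σ * D ≤ (m + 1) * M + (m + n) :=
    (mul_le_mul_of_nonneg_right hσ hD0.le).trans h1
  have h3 := mul_le_mul_of_nonneg_left h2 (by linarith : (0 : ℤ) ≤ 4 * (n + 1))
  have h4 := mul_le_mul_of_nonneg_left hg
    (mul_nonneg (mul_nonneg (by linarith : (0 : ℤ) ≤ 3 * (n + 1)) (by linarith : 0 ≤ m + 1)) hD0.le)
  have h5 := mul_le_mul_of_nonneg_left hT (by linarith : (0 : ℤ) ≤ m + 1)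
  have h6 : 4 * (m + n) + 4 * (m + 1) * D ≤ 3 * (m + 1) ^ 2 * D := by
    have h7 : 0 ≤ (m - 2) * (m + 1) * D := mul_nonneg (mul_nonneg (by linarith) (by linarith)) hD0.le
    have h8 : 0 ≤ (m + 1) * D := mul_nonneg (by linarith) hD0.le
    have h9 : 0 ≤ m * D := mul_nonneg (by linarith) hD0.le
    nlinarith
  have h7 := mul_le_mul_of_nonneg_left h6 (by linarith : (0 : ℤ) ≤ n + 1)
  subst hD
  nlinarith [h3, h4, h5, h7]

theorem ASN : ASN_stmt := by
  intro m n M s hm hn hT hs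
  have hD0 : 0 < m + n + 1 := by omega
  have ha : (s * (m + n + 1) ≤ (m + 1) * M + (m + n)) ∧
      ((m + 1) * M ≤ s * (m + n + 1) + (m + n)) := by
    rcases hs with hs | hs
    · have h1 := Nat.div_mul_le_self ((m + 1) * M) (m + n + 1)
      have h2 := Nat.lt_div_mul_add hD0 (a := (m + 1) * M)
      rw [← hs] at h1 h2
      constructor <;> omega
    · have h1 := Nat.div_mul_le_self ((m + 1) * M + (m + n)) (m + n + 1)
      have h2 := Nat.lt_div_mul_add hD0 (a := (m + 1) * M + (m + n))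
      rw [← hs] at h1 h2
      constructor <;> omega
  obtain ⟨ha1, ha2⟩ := ha
  have hm1 : 0 < m + 1 := by omega
  have hσ1 : (m + 1) * (s / (m + 1)) ≤ s := Nat.mul_div_le s (m + 1)
  have hσ2 : s < (m + 1) * (s / (m + 1) + 1) := by
    have := Nat.lt_mul_div_succ s hm1
    exact this
  set σ := s / (m + 1) with hσ
  refine ⟨ha1, ha2, ?_, ?_⟩
  · -- (b)
    zify at hm hn hT ha2 hσ2 ⊢
    have h1 : ((s : ℤ) + 1) * (m + n + 1) ≤ (m + 1) * (σ + 1) * (m + n + 1) :=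
      mul_le_mul_of_nonneg_right (by linarith) (by linarith)
    have h2 : ((m : ℤ) + 1) * M < (m + 1) * ((σ + 1) * (m + n + 1)) := by linarith
    have h3 : (M : ℤ) < (σ + 1) * (m + n + 1) := lt_of_mul_lt_mul_left h2 (by linarith)
    have h4 : (3 * ((m : ℤ) + 13) * (n + 1) ^ 2) * (m + n + 1) <
        (4 * m * (σ + 1)) * (m + n + 1) := by
      have h5 := mul_lt_mul_of_pos_left h3 (by linarith : (0 : ℤ) < 4 * m)
      linarith
    have h5 : 3 * ((m : ℤ) + 13) * (n + 1) ^ 2 < 4 * m * (σ + 1) :=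
      lt_of_mul_lt_mul_right h4 (by linarith)
    have h6 : (m : ℤ) * (3 * (n + 1) ^ 2) < m * (4 * (σ + 1)) := by
      have h7 : (0 : ℤ) ≤ (n + 1) ^ 2 := sq_nonneg _
      nlinarith
    have h7 : (3 : ℤ) * (n + 1) ^ 2 < 4 * (σ + 1) := lt_of_mul_lt_mul_left h6 (by linarith)
    have h8 : (0 : ℤ) ≤ (3 * n - 5) ^ 2 := sq_nonneg _
    nlinarith
  · intro g hg
    have := ASN_c m n M (m + n + 1) s σ g (by exact_mod_cast hm) (by exact_mod_cast hn) rfl
      (by exact_mod_cast hT) (by exact_mod_cast ha1) (by exact_mod_cast hσ1)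
      (by exact_mod_cast hg)
    exact_mod_cast this

end Pool.Agent.SG
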